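import Pool.Agent.Helper45.U4.St3

/-!
Project U4, module COL: the points of `X` are pairwise perpendicular.
-/

set_option autoImplicit false

open Module Classical
open scoped LinearAlgebra.Projectivization

namespace Pool.Agent.Helper8.U4

open Pool.Agent.Helper45.U4 Pool.Agent.Helper53.PB

section
variable {F V : Type} [Field F] [AddCommGroup V] [Module F V]

/-- the hyperbolic line spanned by `x, x'` -/
theorem alg_h (h1 : StHF) (φ : Form F V) (hk : φ.kind = .hermitian) (hc : Nat.card F = 4) {ω : F}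
    (hω : Om ω) {x x' : V} (hx : φ.Sing x) (hx' : φ.Sing x') (hb : φ.f x x' ≠ 0) :
    ∃ n : V, n ∈ Submodule.span F {x} ⊔ Submodule.span F {x'} ∧ φ.f n n = 1 ∧ φ.f x n ≠ 0 ∧
      ∀ y ∈ Submodule.span F {x} ⊔ Submodule.span F {x'}, φ.Sing y → y ≠ 0 → φ.f y n ≠ 0 := by
  obtain ⟨-, -, hadd, hsm, hcj, hsi, -, -⟩ := h1 φ hk hc
  obtain ⟨b, hbd⟩ : ∃ b, b = φ.f x x' := ⟨_, rfl⟩
  rw [← hbd] at hb
  have hxx : φ.f x x = 0 := (hsi x).1 hx
  have hxx' : φ.f x' x' = 0 := (hsi x').1 hx'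
  have hx'x : φ.f x' x = b ^ 2 := by rw [hcj x x', hbd]
  obtain ⟨n, hn⟩ : ∃ n, n = x + (ω / b) • x' := ⟨_, rfl⟩
  have e1 : φ.f x n = ω := by
    rw [hn, map_add, map_smul, hxx, ← hbd, smul_eq_mul, div_mul_cancel₀ _ hb, zero_add]
  have e2 : φ.f x' n = b ^ 2 := by
    rw [hn, map_add, map_smul, hxx', hx'x, smul_zero, add_zero]
  have hmem : n ∈ Submodule.span F {x} ⊔ Submodule.span F {x'} := by
    rw [hn]
    exact Submodule.add_mem_sup (Submodule.mem_span_singleton_self x)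
      (Submodule.smul_mem _ _ (Submodule.mem_span_singleton_self x'))
  have gen : ∀ α β : F, φ.f (α • x + β • x') n = α ^ 2 * ω + β ^ 2 * b ^ 2 := by
    intro α β
    rw [hadd, hsm, hsm, e1, e2]
  refine ⟨n, hmem, ?_, ?_, ?_⟩
  · have h2 : φ.f n n = φ.f ((1 : F) • x + (ω / b) • x') n := by
      rw [one_smul, ← hn]
    rw [h2, gen, div_pow, div_mul_cancel₀ _ (pow_ne_zero 2 hb), hω.sq]
    linear_combination hω.two ω
  · rw [e1]
    exact hω.ne
  · intro y hy hys hy0 hyn
    obtain ⟨y1, hy1, y2, hy2, rfl⟩ := Submodule.mem_sup.1 hy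
    obtain ⟨α, rfl⟩ := Submodule.mem_span_singleton.1 hy1
    obtain ⟨β, rfl⟩ := Submodule.mem_span_singleton.1 hy2
    rw [gen] at hyn
    have h3 : φ.f (α • x + β • x') (α • x + β • x') = α * β * b * (β * b + α) := by
      rw [hadd, hsm, hsm, map_add, map_smul, map_smul, map_add, map_smul, map_smul, hxx, hxx',
        hx'x, ← hbd]
      simp only [smul_eq_mul]
      ring
    rw [(hsi _).1 hys] at h3
    have h4 : α = 0 ∨ β = 0 ∨ β * b + α = 0 := by
      rcases mul_eq_zero.1 h3.symm with h | h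
      · rcases mul_eq_zero.1 h with h | h
        · rcases mul_eq_zero.1 h with h | h
          · exact Or.inl h
          · exact Or.inr (Or.inl h)
        · exact absurd h hb
      · exact Or.inr (Or.inr h)
    have hα : α ≠ 0 := by
      intro h0
      rw [h0, zero_pow two_ne_zero, zero_mul, zero_add] at hyn
      have h5 : β = 0 := by
        rcases mul_eq_zero.1 hyn with h | h
        · exact pow_eq_zero_iff two_ne_zero |>.1 h
        · exact absurd h (pow_ne_zero 2 hb)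
      apply hy0
      rw [h0, h5, zero_smul, zero_smul, add_zero]
    rcases h4 with h | h | h
    · exact hα h
    · rw [h, zero_pow two_ne_zero, zero_mul, add_zero] at hyn
      rcases mul_eq_zero.1 hyn with h' | h'
      · exact hα (pow_eq_zero_iff two_ne_zero |>.1 h')
      · exact hω.ne h'
    · have h5 : β * b = -α := eq_neg_of_add_eq_zero_left h
      have h6 : β ^ 2 * b ^ 2 = α ^ 2 := by rw [← mul_pow, h5, neg_sq]
      rw [h6] at hyn
      have h7 : α ^ 2 * ω ^ 2 = 0 := by rw [hω.sq, ← hyn]; ring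
      rcases mul_eq_zero.1 h7 with h' | h'
      · exact hα (pow_eq_zero_iff two_ne_zero |>.1 h')
      · exact hω.ne (pow_eq_zero_iff two_ne_zero |>.1 h')

end

/-- counting: a point of small value -/
theorem count_pt {ι : Type} [DecidableEq ι] (Pt M T : Finset ι) (c : ι → ℤ) (hM : M ⊆ Pt) (h21 : Pt.card = 21)
    (h5 : M.card = 5) (h50 : ∑ y ∈ Pt, c y = 50) (hc : ∀ y ∈ Pt, 2 ≤ c y) (hT : (M ∩ T).card ≤ 1)
    (hv : ∀ y ∈ M, y ∉ T → c y = 2 ∨ 5 ≤ c y) : ∃ y ∈ M, y ∉ T ∧ c y = 2 := by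
  by_contra hcon
  push Not at hcon
  have e1 := Finset.sum_sdiff (f := c) hM
  have e2 : (16 : ℤ) * 2 ≤ ∑ y ∈ Pt \ M, c y := by
    have h := Finset.card_nsmul_le_sum (Pt \ M) c 2 (fun y hy => hc y (Finset.mem_sdiff.1 hy).1)
    rw [Finset.card_sdiff_of_subset hM, h21, h5] at h
    simpa using h
  have e3 : ∑ y ∈ M \ T, c y ≤ ∑ y ∈ M, c y :=
    Finset.sum_le_sum_of_subset_of_nonneg Finset.sdiff_subset fun y hy _ => by
      have := hc y (hM hy)
      omega
  have e4 : 4 ≤ (M \ T).card := by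
    have h := Finset.card_sdiff_add_card_inter M T
    omega
  have e5 : ((M \ T).card : ℤ) * 5 ≤ ∑ y ∈ M \ T, c y := by
    have h := Finset.card_nsmul_le_sum (M \ T) c 5 (fun y hy => by
      rw [Finset.mem_sdiff] at hy
      rcases hv y hy.1 hy.2 with h | h
      · exact absurd h (hcon y hy.1 hy.2)
      · exact h)
    simpa using h
  have e6 : (4 : ℤ) ≤ ((M \ T).card : ℤ) := by exact_mod_cast e4
  linarith

/-- a multiset of total two with two points -/
theorem two_pts {F V : Type} [Field F] [AddCommGroup V] [Module F V] (S : Finset (ℙ F V))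
    (X : ℙ F V → ℤ) (hX : ∀ y, 0 ≤ X y) {x x' : ℙ F V} (hne : x ≠ x') (hxS : x ∈ S) (hxS' : x' ∈ S)
    (hx : 0 < X x) (hx' : 0 < X x') (h2 : ∑ y ∈ S, X y = 2) :
    ∀ y ∈ S, X y = del x y + del x' y := by
  have h3 : ∀ y ∈ S, 0 ≤ X y - (del x y + del x' y) := by
    intro y _
    unfold del
    by_cases h : y = x
    · rw [if_pos h, if_neg (fun h' => hne (h.symm.trans h')), h]
      omega
    · by_cases h' : y = x'
      · rw [if_neg h, if_pos h', h']
        omega
      · rw [if_neg h, if_neg h']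
        have := hX y
        omega
  have h4 : ∑ y ∈ S, (X y - (del x y + del x' y)) = 0 := by
    rw [Finset.sum_sub_distrib, Finset.sum_add_distrib, h2]
    unfold del
    rw [Finset.sum_ite_eq', Finset.sum_ite_eq', if_pos hxS, if_pos hxS']
    norm_num
  intro y hy
  have h5 := (Finset.sum_eq_zero_iff_of_nonneg h3).1 h4 y hy
  omega

theorem hCOL (h1 : StHF) (h2 : StHRS) (h3 : StDCT) (h4 : StPSH) (h5 : StEXC) (h6 : StEXB)
    (h7 : StLHP) : StCOL := by
  intro F V _ _ _ _ _ _ φ T X hT hX x x' hx hx'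
  by_contra hperp
  have hk := hT.hs.kind
  have hcard := hT.hs.card
  obtain ⟨⟨ω, hω⟩, -, hadd, hsm, hcj, hsi, -, -⟩ := h1 φ hk hcard
  have hsing : ∀ y : ℙ F V, 0 < X y → φ.Sing y.rep := by
    intro y hy
    by_contra h
    have := hX.sup y h
    omega
  have hxs := hsing x hx
  have hxs' := hsing x' hx'
  have hperp' : φ.f x'.rep x.rep ≠ 0 := fun h => hperp (φ.f_symm _ _ h)
  have hne : x ≠ x' := by
    rintro rfl
    exact hperp ((hsi _).1 hxs)
  -- the points outside the hyperbolic line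
  let Y : Finset (ℙ F V) := Finset.univ.filter (fun y => 0 < X y ∧
    y.rep ∉ Submodule.span F {x.rep} ⊔ Submodule.span F {x'.rep})
  have hYc : Y.card ≤ 20 := by
    have e1 : (Y.card : ℤ) ≤ ∑ y ∈ Y, X y := by
      have h := Finset.card_nsmul_le_sum Y X 1 (fun y hy => by
        have := (Finset.mem_filter.1 hy).2.1
        omega)
      simpa using h
    have e2 : ∑ y ∈ Y, X y ≤ ∑ y, X y :=
      Finset.sum_le_sum_of_subset_of_nonneg (Finset.subset_univ _) fun y _ _ => hX.nonneg y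
    rw [hX.tot] at e2
    have e3 : (Y.card : ℤ) ≤ 10 := e1.trans e2
    have e4 : Y.card ≤ 10 := by exact_mod_cast e3
    omega
  obtain ⟨m, u, hmts, hmd, hmp, hup, hum, huu, hmY⟩ := h7 φ hT.hs x.rep x'.rep hxs hxs' hperp' Y hYc
    (fun y hy => ⟨hsing y (Finset.mem_filter.1 hy).2.1, (Finset.mem_filter.1 hy).2.2⟩)
  obtain ⟨n, hnh, hnn, hxn, hyn⟩ := alg_h h1 φ hk hcard hω hxs hxs' hperp
  have hux : φ.f x.rep u = 0 := hup.1
  have hux' : φ.f x'.rep u = 0 := hup.2
  -- elements of the hyperbolic line are perpendicular to `u` and `m`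
  have hspan : ∀ y ∈ Submodule.span F {x.rep} ⊔ Submodule.span F {x'.rep},
      ∀ z ∈ perp2 φ x.rep x'.rep, φ.f y z = 0 := by
    intro y hy z hz
    obtain ⟨y1, hy1, y2, hy2, rfl⟩ := Submodule.mem_sup.1 hy
    obtain ⟨α, rfl⟩ := Submodule.mem_span_singleton.1 hy1
    obtain ⟨β, rfl⟩ := Submodule.mem_span_singleton.1 hy2
    have hz1 : φ.f x.rep z = 0 := hz.1
    have hz2 : φ.f x'.rep z = 0 := hz.2
    rw [hadd, hsm, hsm, hz1, hz2, mul_zero, mul_zero, add_zero]
  have hnu : φ.f n u = 0 := hspan n hnh u hup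
  have hun : φ.f u n = 0 := φ.f_symm _ _ hnu
  have hws : φ.Sing (n + u) := by
    rw [hsi, hadd, map_add, map_add, hnn, hnu, hun, huu, add_zero, zero_add]
    exact hω.two 1
  have hmw : ∀ a ∈ m, φ.toPolar.f a (n + u) = 0 := by
    intro a ha
    change φ.f a (n + u) = 0
    rw [map_add, φ.f_symm _ _ (hspan n hnh a (hmp ha)), φ.f_symm _ _ (hum a ha), add_zero]
  have hwm : n + u ∉ m := by
    intro h
    have h' : φ.f x.rep (n + u) = 0 := (hmp h).1
    rw [map_add, hux, add_zero] at h'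
    exact hxn h'
  have hπts : φ.toPolar.TS (m ⊔ Submodule.span F {n + u}) := hmts.sup_span hws hmw
  have hw0 : n + u ≠ 0 := fun h => hwm (h ▸ zero_mem m)
  have hπd : finrank F (m ⊔ Submodule.span F {n + u} : Submodule F V) = 3 := by
    have e1 : m ⊓ Submodule.span F {n + u} = ⊥ := by
      rw [eq_bot_iff]
      rintro z ⟨hz1, hz2⟩
      obtain ⟨c, rfl⟩ := Submodule.mem_span_singleton.1 hz2
      by_cases hc : c = 0
      · rw [hc, zero_smul]
        exact zero_mem _
      · exact absurd ((Submodule.smul_mem_iff m hc).1 hz1) hwm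
    have e2 := Submodule.finrank_sup_add_finrank_inf_eq m (Submodule.span F {n + u})
    rw [e1, finrank_bot, finrank_span_singleton hw0, add_zero, hmd] at e2
    exact e2
  obtain ⟨U, hU, hπU⟩ := Polar.exists_gen_ge hπts
  -- no point of `X` is perpendicular to `π`
  have hno : ∀ y : ℙ F V, 0 < X y →
      ¬ (m ⊔ Submodule.span F {n + u}) ≤ LinearMap.ker (φ.toPolar.f y.rep) := by
    intro y hy hle
    by_cases hyh : y.rep ∈ Submodule.span F {x.rep} ⊔ Submodule.span F {x'.rep}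
    · have e1 : φ.f y.rep (n + u) = 0 :=
        hle (Submodule.mem_sup_right (Submodule.mem_span_singleton_self _))
      rw [map_add, hspan _ hyh u hup, add_zero] at e1
      exact hyn _ hyh (hsing y hy) y.rep_nonzero e1
    · exact hmY y (Finset.mem_filter.2 ⟨Finset.mem_univ _, hy, hyh⟩) (le_sup_left.trans hle)
  have hz : ∀ y : ℙ F V, (m ⊔ Submodule.span F {n + u}) ≤ LinearMap.ker (φ.toPolar.f y.rep) →
      X y = 0 := by
    intro y hle
    by_contra h
    exact hno y (lt_of_le_of_ne (hX.nonneg y) (Ne.symm h)) hle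
  have hzU : ∀ y : ℙ F V, y.rep ∈ U → X y = 0 := by
    intro y hy
    exact hz y (fun z hz' => hU.1.2 _ hy _ (hπU hz'))
  have htU : tf X U = 0 := Finset.sum_eq_zero fun y hy => hzU y (mem_pts.1 hy)
  have httU : tt T U = 1 := by
    have := hX.tt U hU
    rw [htU, add_zero] at this
    exact_mod_cast this
  have hnp : np φ.toPolar X (m ⊔ Submodule.span F {n + u}) = 0 :=
    Finset.sum_eq_zero fun y hy => hz y (Finset.mem_filter.1 hy).2
  have hsum := h3 φ.toPolar X (m ⊔ Submodule.span F {n + u}) 2 hcard hπd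
  rw [hnp, hX.tot, geo_two] at hsum
  obtain ⟨eA, eB, eC⟩ := h6 φ T X hT hX
  have hge : ∀ R ∈ pts (m ⊔ Submodule.span F {n + u}), 2 ≤ nf φ.toPolar X R := by
    intro R hR
    rw [mem_pts] at hR
    by_cases hRT : R ∈ T
    · exact eB R hRT
    · rcases eC R (hU.1.1 _ (hπU hR)) hRT (hzU R (hπU hR)) with h | h
      · omega
      · omega
  have hsub : pts m ⊆ pts (m ⊔ Submodule.span F {n + u}) := by
    intro R hR
    rw [mem_pts] at hR ⊢
    exact Submodule.mem_sup_left hR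
  obtain ⟨R, hRm, hRT, hR2⟩ := count_pt (pts (m ⊔ Submodule.span F {n + u})) (pts m) T
    (fun R => nf φ.toPolar X R) hsub (by rw [card_pts, hπd, hcard]; rfl)
    (by rw [card_pts, hmd, hcard]; rfl) (by rw [hsum]; norm_num) hge
    (by
      rw [← httU]
      unfold tt
      apply Finset.card_le_card
      intro y hy
      rw [Finset.mem_inter, mem_pts] at hy
      exact Finset.mem_filter.2 ⟨hy.2, hπU (Submodule.mem_sup_left hy.1)⟩)
    (fun y hy hyT => by
      have hy' := mem_pts.1 (hsub hy)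
      exact eC y (hU.1.1 _ (hπU hy')) hyT (hzU y (hπU hy')))
  rw [mem_pts] at hRm
  have hRU : R.rep ∈ U := hπU (Submodule.mem_sup_left hRm)
  have hRs : φ.Sing R.rep := hU.1.1 _ hRU
  have hXR : X R = 0 := hzU R hRU
  have hxR : φ.f x.rep R.rep = 0 := (hmp hRm).1
  have hxR' : φ.f x'.rep R.rep = 0 := (hmp hRm).2
  have hRx : x ≠ R := by
    rintro rfl
    omega
  have hRx' : x' ≠ R := by
    rintro rfl
    omega
  have htwo := two_pts (Finset.univ.filter (fun y : ℙ F V => φ.toPolar.f y.rep R.rep = 0)) X hX.nonneg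
    hne (Finset.mem_filter.2 ⟨Finset.mem_univ _, hxR⟩)
    (Finset.mem_filter.2 ⟨Finset.mem_univ _, hxR'⟩) hx hx' hR2
  -- the residue
  obtain ⟨w, hw⟩ := exists_pair φ hRs R.rep_nonzero
  obtain ⟨hs0, -⟩ := h2 φ 3 hT.hs R.rep w hRs hw
  have hres := resForm_isRes φ hRs hw
  have hsupT : Sup φ.toPolar (chi T) := sup_chi hT.block.1
  obtain ⟨p1, p2, -, p4, p5, p6, p7⟩ := h4 (resForm φ hRs hw).toPolar φ.toPolar
    (perp2 φ R.rep w).subtype R w hres (chi T) hsupT
  obtain ⟨Q, hQ⟩ := p5 x hRx (φ.f_symm _ _ hxR)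
  obtain ⟨Q', hQ'⟩ := p5 x' hRx' (φ.f_symm _ _ hxR')
  have q1 := p6 x Q (φ.f_symm _ _ hxR) hQ
  have q2 := p6 x' Q' (φ.f_symm _ _ hxR') hQ'
  have q3 := p7 x x' Q Q' (φ.f_symm _ _ hxR) (φ.f_symm _ _ hxR') hQ hQ'
  obtain ⟨-, -, hex⟩ := h5 (resForm φ hRs hw) (pu (perp2 φ R.rep w).subtype R.rep (chi T)) hs0
    (p4 (chi_nonneg T)) p1
  refine hex Q Q' (q1.2.1 hxs) (q2.2.1 hxs') (fun h => hperp (q3.1 h)) ?_
  intro W0 hW0
  have hL := hres.lift_gen hW0
  have r1 := p2 W0
  rw [chi_not hRT, add_zero] at r1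
  rw [r1, tf_chi, hX.tt _ hL]
  have hRL : R.rep ∈ IsRes.lift (perp2 φ R.rep w).subtype R.rep W0 :=
    IsRes.mem_lift.2 ⟨0, zero_mem _, 1, by simp⟩
  have r2 : tf X (IsRes.lift (perp2 φ R.rep w).subtype R.rep W0) =
      tf (fun y => del x y + del x' y) (IsRes.lift (perp2 φ R.rep w).subtype R.rep W0) := by
    unfold tf
    refine Finset.sum_congr rfl fun y hy => ?_
    rw [mem_pts] at hy
    exact htwo y (Finset.mem_filter.2 ⟨Finset.mem_univ _, hL.1.2 _ hy _ hRL⟩)
  rw [r2, tf_add, tf_del, tf_del]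
  simp only [q1.1 W0, q2.1 W0]
  ring

end Pool.Agent.Helper8.U4
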